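import Mathlib
import Pool.Agent.Helper328.SphereSum
import Pool.Agent.Helper328.SimplexExist

set_option autoImplicit false

namespace Pool.Agent.Results.MP_b22a07_co.OrthogonalSimplices

open Pool.Agent.Helper328.SphereSum

/-- Sum of the Euclidean distances over the unordered pairs of points of `P`. -/
noncomputable def distSum {d : ℕ} (P : Finset (EuclideanSpace ℝ (Fin d))) : ℝ :=
  (∑ p ∈ P, ∑ q ∈ P, dist p q) / 2

/-- `P` is a set of `N` points of the unit sphere of `ℝ^(k+1)`. -/
def IsConfig (k N : ℕ) (P : Finset (EuclideanSpace ℝ (Fin (k + 1)))) : Prop :=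
  (∀ p ∈ P, ‖p‖ = 1) ∧ P.card = N

/-- `P` is the union of `r` classes of `m` points each, two distinct points having inner product
`-1/(m-1)` if they are in one class and `0` otherwise. For unit vectors this says that `P` is the
union of the vertex sets of `r` mutually orthogonal regular simplices with `m` vertices. -/
def OrthSimplices (r m : ℕ) {d : ℕ} (P : Finset (EuclideanSpace ℝ (Fin d))) : Prop :=
  ∃ c : EuclideanSpace ℝ (Fin d) → Fin r,
    (∀ a : Fin r, (P.filter (fun p => c p = a)).card = m) ∧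
    ∀ p ∈ P, ∀ q ∈ P, p ≠ q → inner ℝ p q = if c p = c q then -1 / ((m : ℝ) - 1) else 0

/-- the parameter -/
noncomputable def gam (m : ℝ) : ℝ := m - √(m * (m - 1))

lemma gam_props (m : ℝ) (hm : 1 < m) : 0 < gam m ∧ gam m < 1 ∧ gam m ^ 2 + m = 2 * m * gam m := by
  have h0 : 0 < m * (m - 1) := mul_pos (by linarith) (by linarith)
  have hs := Real.sq_sqrt h0.le
  have hp := Real.sqrt_pos.2 h0
  unfold gam
  refine ⟨?_, ?_, ?_⟩
  · nlinarith
  · nlinarith
  · nlinarith

lemma two_div_sqrt_two : (2 : ℝ) / √2 = √2 := Real.div_sqrt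

lemma bound_iff_aux (k N r m : ℕ) (hN : k + 2 < N) (hr : N = k + 1 + r) (hm : N = r * m) :
    2 ≤ r ∧ 2 ≤ m := by
  constructor
  · omega
  · by_contra hc
    have : m = 0 ∨ m = 1 := by omega
    rcases this with h | h <;> subst h <;> omega

lemma sum_coe (d : ℕ) (P : Finset (EuclideanSpace ℝ (Fin d))) :
    ∑ i : P, ∑ j : P, ‖(i : EuclideanSpace ℝ (Fin d)) - j‖ = 2 * distSum P := by
  unfold distSum
  rw [mul_div_cancel₀ _ (by norm_num : (2 : ℝ) ≠ 0)]
  rw [← Finset.sum_coe_sort P]
  apply Finset.sum_congr rfl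
  intro i _
  rw [← Finset.sum_coe_sort P]
  apply Finset.sum_congr rfl
  intro j _
  rw [dist_eq_norm]

/-- the optimal value -/
noncomputable def val (N m : ℕ) : ℝ := (N : ℝ) / √2 * (N - m + √((m : ℝ) * (m - 1)))

lemma two_val (N m : ℕ) : 2 * val N m = √2 * N * (N - gam m) := by
  unfold val gam
  have : (2 : ℝ) / √2 = √2 := Real.div_sqrt
  calc 2 * ((N : ℝ) / √2 * (N - m + √((m : ℝ) * (m - 1))))
      = (2 / √2) * N * (N - m + √((m : ℝ) * (m - 1))) := by ring
    _ = _ := by rw [this]; ring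

lemma upper (k N r m : ℕ) (hN : k + 2 < N) (hr : N = k + 1 + r) (hm : N = r * m)
    (P : Finset (EuclideanSpace ℝ (Fin (k + 1)))) (hP : IsConfig k N P) :
    distSum P ≤ val N m ∧ (distSum P = val N m →
      ∃ Q : P → P → ℝ, (∀ i j, Q i j = Q j i) ∧ (∀ i j, ∑ k, Q i k * Q j k = Q i j) ∧
        (∀ i, ∑ j, Q i j = 1) ∧ (∀ i, Q i i = 1 / (m : ℝ)) ∧
        (∀ i j, Q i j = 0 ∨ Q i j = 1 / (m : ℝ)) ∧
        (∀ i j : P, i ≠ j → (1 - gam m * Q i j) *
          ‖(i : EuclideanSpace ℝ (Fin (k + 1))) - j‖ = √2)) := by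
  obtain ⟨hr2, hm2⟩ := bound_iff_aux k N r m hN hr hm
  have hm1 : (1 : ℝ) < m := by exact_mod_cast (by omega : 1 < m)
  obtain ⟨hg0, hg1, hgm⟩ := gam_props m hm1
  have hcard : Fintype.card P = N := by rw [Fintype.card_coe]; exact hP.2
  have hdim : (Fintype.card P : ℝ) / m ≤
      Fintype.card P - Module.finrank ℝ (EuclideanSpace ℝ (Fin (k + 1))) := by
    rw [finrank_euclideanSpace, Fintype.card_fin, hcard]
    have h1 : (N : ℝ) = r * m := by exact_mod_cast hm
    have h2 : (N : ℝ) = k + 1 + r := by exact_mod_cast hr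
    have h3 : (N : ℝ) / m = r := by rw [h1]; field_simp
    rw [h3]
    push_cast
    linarith
  have h := main_bound (fun i : P => (i : EuclideanSpace ℝ (Fin (k + 1))))
    (fun i => hP.1 i i.2) (by rw [hcard]; omega) (gam m) m hm1 hg0 hg1 hgm hdim
  rw [hcard] at h
  have e : ∑ i : P, ∑ j : P, ‖(fun i : P => (i : EuclideanSpace ℝ (Fin (k + 1)))) i -
      (fun i : P => (i : EuclideanSpace ℝ (Fin (k + 1)))) j‖ = 2 * distSum P :=
    sum_coe (k + 1) P
  rw [e, ← two_val] at h
  refine ⟨by linarith [h.1], fun heq => ?_⟩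
  exact h.2 (by rw [heq])

lemma gam_sq (m : ℝ) (hm : 1 < m) : (1 - gam m * (1 / m)) ^ 2 = (m - 1) / m := by
  obtain ⟨hg0, hg1, hgm⟩ := gam_props m hm
  have hm0 : m ≠ 0 := by linarith
  field_simp
  nlinarith

lemma structure_of_eq (k N r m : ℕ) (hN : k + 2 < N) (hr : N = k + 1 + r) (hm : N = r * m)
    (P : Finset (EuclideanSpace ℝ (Fin (k + 1)))) (hP : IsConfig k N P)
    (heq : distSum P = val N m) : OrthSimplices r m P := by
  classical
  obtain ⟨hr2, hm2⟩ := bound_iff_aux k N r m hN hr hm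
  have hm1 : (1 : ℝ) < m := by exact_mod_cast (by omega : 1 < m)
  have hm0 : (0 : ℝ) < m := by linarith
  obtain ⟨Q, hs, hidem, hsum, hD, h01, hd⟩ := (upper k N r m hN hr hm P hP).2 heq
  have hrow : ∀ i j : P, Q i j = 1 / (m : ℝ) ↔ Q i = Q j := by
    intro i j
    constructor
    · intro h
      have h1 := Q_sq_sum hs hidem i j
      rw [hD, hD, h] at h1
      have h2 : ∑ k, (Q i k - Q j k) ^ 2 = 0 := by rw [h1]; ring
      funext k
      have h3 := (Finset.sum_eq_zero_iff_of_nonneg (fun k _ => sq_nonneg (Q i k - Q j k))).1 h2 k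
        (Finset.mem_univ k)
      have := pow_eq_zero_iff (two_ne_zero) |>.1 h3
      linarith
    · intro h
      rw [h]; exact hD j
  have hclass : ∀ i : P, (Finset.univ.filter (fun j => Q j = Q i)).card = m := by
    intro i
    have h1 := hsum i
    have h2 : ∑ j, Q i j = ∑ j, if Q j = Q i then 1 / (m : ℝ) else 0 := by
      apply Finset.sum_congr rfl
      intro j _
      split_ifs with h
      · exact (hrow i j).2 h.symm
      · rcases h01 i j with h2 | h2
        · exact h2
        · exact absurd ((hrow i j).1 h2).symm h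
    rw [h2, ← Finset.sum_filter, Finset.sum_const, nsmul_eq_mul] at h1
    have h3 : ((Finset.univ.filter (fun j => Q j = Q i)).card : ℝ) = m := by
      field_simp at h1
      linarith
    exact_mod_cast h3
  set R := Finset.univ.image Q with hR
  have hRcard : R.card = r := by
    have h1 : (Finset.univ : Finset P).card = ∑ b ∈ R, (Finset.univ.filter (fun j => Q j = b)).card :=
      Finset.card_eq_sum_card_image Q Finset.univ
    have h2 : ∀ b ∈ R, (Finset.univ.filter (fun j => Q j = b)).card = m := by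
      intro b hb
      rw [hR, Finset.mem_image] at hb
      obtain ⟨i, _, rfl⟩ := hb
      exact hclass i
    rw [Finset.sum_congr rfl h2, Finset.sum_const, smul_eq_mul, Finset.card_univ,
      Fintype.card_coe, hP.2, hm] at h1
    exact (Nat.eq_of_mul_eq_mul_right (by omega) h1).symm
  let e : R ≃ Fin r := Fintype.equivFinOfCardEq (by rw [Fintype.card_coe]; exact hRcard)
  have hmem : ∀ i : P, Q i ∈ R := fun i => Finset.mem_image_of_mem _ (Finset.mem_univ i)
  let c : EuclideanSpace ℝ (Fin (k + 1)) → Fin r := fun p =>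
    if h : p ∈ P then e ⟨Q ⟨p, h⟩, hmem ⟨p, h⟩⟩ else ⟨0, by omega⟩
  have hc : ∀ i : P, c i = e ⟨Q i, hmem i⟩ := by
    intro i
    simp [c, i.2]
  have hcc : ∀ i j : P, c i = c j ↔ Q i = Q j := by
    intro i j
    rw [hc, hc, e.injective.eq_iff, Subtype.mk.injEq]
  refine ⟨c, ?_, ?_⟩
  · intro a
    obtain ⟨⟨b, hb⟩, rfl⟩ := e.surjective a
    have hb' := hb
    rw [hR, Finset.mem_image] at hb'
    obtain ⟨i, _, rfl⟩ := hb'
    rw [← hclass i]
    symm
    apply Finset.card_bij (fun (j : P) _ => (j : EuclideanSpace ℝ (Fin (k + 1))))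
    · intro j hj
      rw [Finset.mem_filter] at hj ⊢
      refine ⟨j.2, ?_⟩
      rw [← hc i]
      exact (hcc j i).2 hj.2
    · intro j _ j' _ h
      exact Subtype.ext h
    · intro p hp
      rw [Finset.mem_filter] at hp
      refine ⟨⟨p, hp.1⟩, ?_, rfl⟩
      rw [Finset.mem_filter]
      refine ⟨Finset.mem_univ _, ?_⟩
      rw [← hcc ⟨p, hp.1⟩ i, hc i]
      exact hp.2
  · intro p hp q hq hpq
    have hij : (⟨p, hp⟩ : P) ≠ ⟨q, hq⟩ := fun h => hpq (congrArg Subtype.val h)
    have h1 := hd ⟨p, hp⟩ ⟨q, hq⟩ hij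
    simp only at h1
    have h2 : ‖p - q‖ ^ 2 = 2 - 2 * inner ℝ p q := by
      rw [norm_sub_sq_real, hP.1 p hp, hP.1 q hq]; ring
    have hcpq := hcc ⟨p, hp⟩ ⟨q, hq⟩
    simp only at hcpq
    have s2 : (√2 : ℝ) ^ 2 = 2 := Real.sq_sqrt (by norm_num)
    split_ifs with h
    · have h3 := (hrow ⟨p, hp⟩ ⟨q, hq⟩).2 (hcpq.1 h)
      rw [h3] at h1
      have h4 : (1 - gam m * (1 / m)) ^ 2 * ‖p - q‖ ^ 2 = 2 := by
        rw [← mul_pow, h1, s2]
      rw [gam_sq m hm1, h2] at h4
      have hm1' : (m : ℝ) - 1 ≠ 0 := by linarith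
      field_simp at h4 ⊢
      linarith
    · have h3 : Q ⟨p, hp⟩ ⟨q, hq⟩ = 0 := by
        rcases h01 ⟨p, hp⟩ ⟨q, hq⟩ with h3 | h3
        · exact h3
        · exact absurd (hcpq.2 ((hrow _ _).1 h3)) h
      rw [h3] at h1
      have h4 : ‖p - q‖ = √2 := by linarith
      rw [h4, s2] at h2
      linarith

lemma distSum_of_orth (k N r m : ℕ) (hm2 : 2 ≤ m)
    (P : Finset (EuclideanSpace ℝ (Fin (k + 1)))) (hP : IsConfig k N P)
    (h : OrthSimplices r m P) : distSum P = val N m := by
  classical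
  obtain ⟨c, hc, hin⟩ := h
  have hm1 : (1 : ℝ) < m := by exact_mod_cast (by omega : 1 < m)
  have s2 : (√2 : ℝ) ^ 2 = 2 := Real.sq_sqrt (by norm_num)
  have hd : ∀ p ∈ P, ∀ q ∈ P, p ≠ q → dist p q =
      if c p = c q then √2 * √((m : ℝ) * (m - 1)) / (m - 1) else √2 := by
    intro p hp q hq hpq
    have h2 : ‖p - q‖ ^ 2 = 2 - 2 * inner ℝ p q := by
      rw [norm_sub_sq_real, hP.1 p hp, hP.1 q hq]; ring
    rw [hin p hp q hq hpq] at h2
    rw [dist_eq_norm]
    have h0 : 0 ≤ ‖p - q‖ := norm_nonneg _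
    split_ifs at h2 ⊢ with hh
    · have hnn : 0 ≤ √2 * √((m : ℝ) * (m - 1)) / (m - 1) := by
        apply div_nonneg (by positivity) (by linarith)
      have hsq : (√2 * √((m : ℝ) * (m - 1)) / (m - 1)) ^ 2 = 2 - 2 * (-1 / ((m : ℝ) - 1)) := by
        rw [div_pow, mul_pow, s2, Real.sq_sqrt (mul_nonneg (by linarith) (by linarith))]
        have : (m : ℝ) - 1 ≠ 0 := by linarith
        field_simp
        ring
      rw [← hsq] at h2
      exact (pow_left_inj₀ h0 hnn (by norm_num)).1 h2
    · have : ‖p - q‖ ^ 2 = √2 ^ 2 := by rw [h2, s2]; ring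
      exact (pow_left_inj₀ h0 (by positivity) (by norm_num)).1 this
  have hrow : ∀ p ∈ P, ∑ q ∈ P, dist p q = √2 * √((m : ℝ) * (m - 1)) + (N - m) * √2 := by
    intro p hp
    rw [← Finset.sum_filter_add_sum_filter_not P (fun q => c q = c p)]
    congr 1
    · have hpm : p ∈ P.filter (fun q => c q = c p) := Finset.mem_filter.2 ⟨hp, rfl⟩
      rw [← Finset.add_sum_erase _ _ hpm, dist_self, zero_add]
      rw [Finset.sum_congr rfl (g := fun _ => √2 * √((m : ℝ) * (m - 1)) / (m - 1))]
      · rw [Finset.sum_const, Finset.card_erase_of_mem hpm, hc (c p), nsmul_eq_mul,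
          Nat.cast_sub (by omega)]
        have : (m : ℝ) - 1 ≠ 0 := by linarith
        push_cast
        field_simp
      · intro q hq
        rw [Finset.mem_erase, Finset.mem_filter] at hq
        rw [hd p hp q hq.2.1 (Ne.symm hq.1), if_pos hq.2.2.symm]
    · rw [Finset.sum_congr rfl (g := fun _ => √2)]
      · rw [Finset.sum_const, nsmul_eq_mul]
        have h1 : (P.filter (fun q => ¬ c q = c p)).card = N - m := by
          have := Finset.card_filter_add_card_filter_not (s := P) (fun q => c q = c p)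
          rw [hc (c p), hP.2] at this
          omega
        have h2 : m ≤ N := by
          rw [← hP.2, ← hc (c p)]
          exact Finset.card_filter_le _ _
        rw [h1, Nat.cast_sub h2]
      · intro q hq
        rw [Finset.mem_filter] at hq
        have hne : p ≠ q := by
          rintro rfl
          exact hq.2 rfl
        rw [hd p hp q hq.1 hne, if_neg (fun h => hq.2 h.symm)]
  unfold distSum
  rw [Finset.sum_congr rfl hrow, Finset.sum_const, hP.2, nsmul_eq_mul]
  unfold val
  have h3 : (√2 : ℝ) ≠ 0 := by positivity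
  field_simp
  linear_combination (N : ℝ) * (√((m : ℝ) * (m - 1)) + (N - m)) * s2

lemma exists_config (k N r m : ℕ) (hN : k + 2 < N) (hr : N = k + 1 + r) (hm : N = r * m) :
    ∃ P, IsConfig k N P ∧ OrthSimplices r m P := by
  classical
  obtain ⟨hr2, hm2⟩ := bound_iff_aux k N r m hN hr hm
  have hm1 : (1 : ℝ) < m := by exact_mod_cast (by omega : 1 < m)
  obtain ⟨x, hx⟩ := Pool.Agent.Helper328.SimplexExist.exists_simplices
    (ι := Fin r × Fin m) (κ := Fin r) Prod.fst (fun _ => m)
    (by
      intro a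
      rw [show (Finset.univ.filter (fun i : Fin r × Fin m => i.1 = a)) =
        ({a} : Finset (Fin r)) ×ˢ (Finset.univ : Finset (Fin m)) from by
          ext i
          rw [Finset.mem_filter, Finset.mem_product, Finset.mem_singleton]
          simp]
      rw [Finset.card_product]
      simp)
    (fun _ => hm2) (k + 1)
    (by
      rw [Fintype.card_prod, Fintype.card_fin, Fintype.card_fin]
      omega)
  have hneg : -1 / ((m : ℝ) - 1) < 1 := by
    have : -1 / ((m : ℝ) - 1) < 0 := div_neg_of_neg_of_pos (by norm_num) (by linarith)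
    linarith
  have hinj : Function.Injective x := by
    intro i j hij
    by_contra hne
    have h1 := hx i j
    have h2 := hx j j
    rw [hij, if_neg hne] at h1
    rw [h1, if_pos rfl] at h2
    split_ifs at h2 <;> linarith
  have hnorm : ∀ i, ‖x i‖ = 1 := by
    intro i
    have h1 := hx i i
    rw [if_pos rfl, real_inner_self_eq_norm_sq] at h1
    nlinarith [norm_nonneg (x i)]
  let c : EuclideanSpace ℝ (Fin (k + 1)) → Fin r := fun p =>
    if h : ∃ i, x i = p then h.choose.1 else ⟨0, by omega⟩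
  have hc : ∀ i, c (x i) = i.1 := by
    intro i
    have h : ∃ j, x j = x i := ⟨i, rfl⟩
    simp only [c, dif_pos h]
    rw [hinj h.choose_spec]
  refine ⟨Finset.univ.image x, ⟨?_, ?_⟩, c, ?_, ?_⟩
  · intro p hp
    obtain ⟨i, _, rfl⟩ := Finset.mem_image.1 hp
    exact hnorm i
  · rw [Finset.card_image_of_injective _ hinj, Finset.card_univ, Fintype.card_prod,
      Fintype.card_fin, Fintype.card_fin, hm]
  · intro a
    rw [Finset.filter_image, Finset.card_image_of_injective _ hinj]
    rw [show (Finset.univ.filter (fun i : Fin r × Fin m => c (x i) = a)) =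
        ({a} : Finset (Fin r)) ×ˢ (Finset.univ : Finset (Fin m)) from by
          ext i
          rw [Finset.mem_filter, Finset.mem_product, Finset.mem_singleton, hc]
          simp]
    rw [Finset.card_product]
    simp
  · intro p hp q hq hpq
    obtain ⟨i, _, rfl⟩ := Finset.mem_image.1 hp
    obtain ⟨j, _, rfl⟩ := Finset.mem_image.1 hq
    rw [hx, if_neg (fun h => hpq (congrArg x h)), hc, hc]

/-- **Main theorem.** If `N > k + 2` and `r = N - k - 1` divides `N`, say `N = r * m`, then the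
largest sum of distances of `N` points of the unit sphere of `ℝ^(k+1)` is
`(N/√2) (N - m + √(m (m-1)))`, and the maximisers are exactly the unions of `r` mutually
orthogonal regular simplices with `m` vertices each. -/
theorem result (k N r m : ℕ) (hN : k + 2 < N) (hr : N = k + 1 + r) (hm : N = r * m) :
    IsGreatest {s : ℝ | ∃ P, IsConfig k N P ∧ s = distSum P}
      ((N : ℝ) / √2 * (N - m + √((m : ℝ) * (m - 1)))) ∧
    ∀ P, IsConfig k N P →
      (distSum P = (N : ℝ) / √2 * (N - m + √((m : ℝ) * (m - 1))) ↔ OrthSimplices r m P) := by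
  obtain ⟨hr2, hm2⟩ := bound_iff_aux k N r m hN hr hm
  have hv : (N : ℝ) / √2 * (N - m + √((m : ℝ) * (m - 1))) = val N m := rfl
  rw [hv]
  refine ⟨⟨?_, ?_⟩, ?_⟩
  · obtain ⟨P, hP, hO⟩ := exists_config k N r m hN hr hm
    exact ⟨P, hP, (distSum_of_orth k N r m hm2 P hP hO).symm⟩
  · rintro s ⟨P, hP, rfl⟩
    exact (upper k N r m hN hr hm P hP).1
  · intro P hP
    exact ⟨structure_of_eq k N r m hN hr hm P hP, distSum_of_orth k N r m hm2 P hP⟩

end Pool.Agent.Results.MP_b22a07_co.OrthogonalSimplices
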